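import Mathlib
import Pool.Agent.H16.DicXor

set_option autoImplicit false

namespace Pool.Agent.Results.MP_5e3b67_co.No

open Pool.Agent.H16.DicXor

theorem result (K : ℕ) (L : ℝ) : ∃ n₀ : ℕ, ∀ n ≥ n₀,
    ∀ φ : (Fin (n + 1) → ZMod 2) ≃ (Fin (n + 1) → ZMod 2),
      (∀ x, par (φ x) = dic x) → Local K φ → ¬ Lip L φ.symm :=
  ⟨(K + 2) ^ (⌈L⌉₊ + 1), fun n hn φ h1 h2 h3 => main K ⌈L⌉₊ n (by omega) φ h1 h2 fun x y =>
    (h3 x y).trans (mul_le_mul_of_nonneg_right (Nat.le_ceil L) (Nat.cast_nonneg _))⟩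

end Pool.Agent.Results.MP_5e3b67_co.No
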